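import Pool.Agent.ZP3.StmtsP

/-!
# HEN: Hensel's lemma for factorisations over `R⟦t⟧`
-/

set_option autoImplicit false
set_option linter.unusedSectionVars false

namespace Pool.Agent.ZP3.H21

open Polynomial

noncomputable section

variable {R : Type} [CommRing R]

/-- a sequence of polynomials of degree at most `N` as a polynomial over `R⟦t⟧` -/
def toP (N : ℕ) (s : ℕ → R[X]) : (PowerSeries R)[X] :=
  ∑ j ∈ Finset.range (N + 1), monomial j (PowerSeries.mk fun n => (s n).coeff j)

theorem toP_coeff {N : ℕ} {s : ℕ → R[X]} (hs : ∀ n, (s n).natDegree ≤ N) (j n : ℕ) :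
    PowerSeries.coeff n ((toP N s).coeff j) = (s n).coeff j := by
  unfold toP
  rw [finsetSum_coeff]
  simp only [coeff_monomial]
  rw [Finset.sum_ite_eq' (Finset.range (N + 1)) j
    (fun j => (PowerSeries.mk fun n => (s n).coeff j : PowerSeries R))]
  by_cases h : j ∈ Finset.range (N + 1)
  · rw [if_pos h, PowerSeries.coeff_mk]
  · rw [if_neg h, map_zero]
    rw [Finset.mem_range] at h
    exact (coeff_eq_zero_of_natDegree_lt (lt_of_le_of_lt (hs n) (by omega))).symm

theorem toP_natDegree (N : ℕ) (s : ℕ → R[X]) : (toP N s).natDegree ≤ N := by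
  unfold toP
  refine natDegree_sum_le_of_forall_le _ _ fun j hj => ?_
  refine (natDegree_monomial_le _).trans ?_
  rw [Finset.mem_range] at hj
  omega

/-- the coefficient of `t^n` -/
def Fn (F : (PowerSeries R)[X]) (n : ℕ) : R[X] :=
  ∑ j ∈ Finset.range (F.natDegree + 1), monomial j (PowerSeries.coeff n (F.coeff j))

theorem Fn_coeff (F : (PowerSeries R)[X]) (n j : ℕ) :
    (Fn F n).coeff j = PowerSeries.coeff n (F.coeff j) := by
  unfold Fn
  rw [finsetSum_coeff]
  simp only [coeff_monomial]
  rw [Finset.sum_ite_eq' (Finset.range (F.natDegree + 1)) j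
    (fun j => PowerSeries.coeff n (F.coeff j))]
  by_cases h : j ∈ Finset.range (F.natDegree + 1)
  · rw [if_pos h]
  · rw [if_neg h]
    rw [Finset.mem_range] at h
    rw [coeff_eq_zero_of_natDegree_lt (by omega), map_zero]

/-- the recursion -/
def AH (f : ℕ → R[X]) (a h u v : R[X]) : ℕ → R[X] × R[X]
  | 0 => (a, h)
  | n + 1 =>
    let c := f (n + 1) - ∑ i : Fin n, (AH f a h u v (i + 1)).1 * (AH f a h u v (n - i)).2
    ((v * c) %ₘ a, u * c + h * ((v * c) /ₘ a))
  decreasing_by
    all_goals simp_wf

/-- the remaining term -/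
def cc (f : ℕ → R[X]) (a h u v : R[X]) (n : ℕ) : R[X] :=
  f (n + 1) - ∑ i ∈ Finset.range n, (AH f a h u v (i + 1)).1 * (AH f a h u v (n - i)).2

theorem AH_zero (f : ℕ → R[X]) (a h u v : R[X]) : AH f a h u v 0 = (a, h) := by
  rw [AH]

theorem AH_succ (f : ℕ → R[X]) (a h u v : R[X]) (n : ℕ) :
    AH f a h u v (n + 1) = ((v * cc f a h u v n) %ₘ a,
      u * cc f a h u v n + h * ((v * cc f a h u v n) /ₘ a)) := by
  rw [AH]
  have e : ∑ i : Fin n, (AH f a h u v (i + 1)).1 * (AH f a h u v (n - i)).2 =
      ∑ i ∈ Finset.range n, (AH f a h u v (i + 1)).1 * (AH f a h u v (n - i)).2 :=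
    Fin.sum_univ_eq_sum_range
      (fun i => (AH f a h u v (i + 1)).1 * (AH f a h u v (n - i)).2) n
  simp only [e]
  rfl

theorem AH_eq {f : ℕ → R[X]} {a h u v : R[X]} (ha : a.Monic) (huv : u * a + v * h = 1) (n : ℕ) :
    a * (AH f a h u v (n + 1)).2 + (AH f a h u v (n + 1)).1 * h = cc f a h u v n := by
  rw [AH_succ]
  set c := cc f a h u v n
  have h1 := modByMonic_add_div (v * c) a
  calc a * (u * c + h * ((v * c) /ₘ a)) + (v * c) %ₘ a * h
      = u * a * c + h * ((v * c) %ₘ a + a * ((v * c) /ₘ a)) := by ring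
    _ = (u * a + v * h) * c := by rw [h1]; ring
    _ = c := by rw [huv, one_mul]

theorem sum_AH {f : ℕ → R[X]} {a h u v : R[X]} (ha : a.Monic) (huv : u * a + v * h = 1)
    (h0 : f 0 = a * h) (n : ℕ) :
    ∑ p ∈ Finset.HasAntidiagonal.antidiagonal n, (AH f a h u v p.1).1 * (AH f a h u v p.2).2 = f n := by
  cases n with
  | zero =>
    rw [Finset.Nat.antidiagonal_zero, Finset.sum_singleton, AH_zero, h0]
  | succ n =>
    rw [Finset.Nat.sum_antidiagonal_eq_sum_range_succ
      (fun i j => (AH f a h u v i).1 * (AH f a h u v j).2), Finset.sum_range_succ,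
      Finset.sum_range_succ']
    have h1 := AH_eq (f := f) ha huv n
    unfold cc at h1
    have e : ∑ k ∈ Finset.range n, (AH f a h u v (k + 1)).1 * (AH f a h u v (n + 1 - (k + 1))).2 =
        ∑ i ∈ Finset.range n, (AH f a h u v (i + 1)).1 * (AH f a h u v (n - i)).2 := by
      refine Finset.sum_congr rfl fun k _ => ?_
      rw [Nat.add_sub_add_right]
    rw [e, Nat.sub_zero, Nat.sub_self, AH_zero]
    simp only
    linear_combination h1

theorem AH_deg [Nontrivial R] {f : ℕ → R[X]} {a h u v : R[X]} (ha : a.Monic) (hh : h.Monic)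
    (huv : u * a + v * h = 1) (hf : ∀ n, (f (n + 1)).degree < a.degree + h.degree) (n : ℕ) :
    (AH f a h u v (n + 1)).1.degree < a.degree ∧ (AH f a h u v (n + 1)).2.degree < h.degree := by
  induction n using Nat.strong_induction_on with
  | _ n ih =>
    have hA : (AH f a h u v (n + 1)).1.degree < a.degree := by
      rw [AH_succ]
      exact degree_modByMonic_lt _ ha
    refine ⟨hA, ?_⟩
    have hab : a.degree ≠ ⊥ := by
      rw [Ne, degree_eq_bot]
      exact ha.ne_zero
    have hhb : h.degree ≠ ⊥ := by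
      rw [Ne, degree_eq_bot]
      exact hh.ne_zero
    have hc : (cc f a h u v n).degree < a.degree + h.degree := by
      unfold cc
      refine lt_of_le_of_lt (degree_sub_le _ _) (max_lt (hf n) ?_)
      have hpos : (⊥ : WithBot ℕ) < a.degree + h.degree := by
        rw [bot_lt_iff_ne_bot, Ne, WithBot.add_eq_bot, not_or]
        exact ⟨hab, hhb⟩
      refine (Finset.sup_lt_iff hpos).2 ?_ |> lt_of_le_of_lt (degree_sum_le _ _)
      intro i hi
      rw [Finset.mem_range] at hi
      obtain ⟨m, hm⟩ : ∃ m, n - i = m + 1 := ⟨n - i - 1, by omega⟩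
      rw [hm]
      refine lt_of_le_of_lt (degree_mul_le _ _) ?_
      exact lt_of_le_of_lt (add_le_add le_rfl (ih m (by omega)).2.le)
        (WithBot.add_lt_add_right hhb (ih i hi).1)
    have h1 := AH_eq (f := f) ha huv n
    have h2 : a * (AH f a h u v (n + 1)).2 =
        cc f a h u v n - (AH f a h u v (n + 1)).1 * h := by
      rw [← h1]
      ring
    have h3 : (a * (AH f a h u v (n + 1)).2).degree < a.degree + h.degree := by
      rw [h2]
      refine lt_of_le_of_lt (degree_sub_le _ _) (max_lt hc ?_)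
      refine lt_of_le_of_lt (degree_mul_le _ _) ?_
      exact WithBot.add_lt_add_right hhb hA
    have h4 : (a * (AH f a h u v (n + 1)).2).degree =
        a.degree + (AH f a h u v (n + 1)).2.degree := by
      rw [mul_comm, ha.degree_mul, add_comm]
    rw [h4] at h3
    exact lt_of_add_lt_add_left h3

theorem hen : HENStmt := by
  intro R _ F a h u v hF ha hh huv h0
  rcases subsingleton_or_nontrivial R with hR | hR
  · refine ⟨1, 1, monic_one, monic_one, Subsingleton.elim _ _, Subsingleton.elim _ _,
      Subsingleton.elim _ _⟩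
  have hdeg : F.natDegree = a.natDegree + h.natDegree := by
    have h1 := hF.natDegree_map (PowerSeries.constantCoeff (R := R))
    rw [h0, ha.natDegree_mul hh] at h1
    exact h1.symm
  set f : ℕ → R[X] := Fn F with hf
  have hf0 : f 0 = a * h := by
    rw [← h0]
    ext j
    rw [hf, Fn_coeff, coeff_map, PowerSeries.coeff_zero_eq_constantCoeff_apply]
  have hfd : ∀ n, (f (n + 1)).degree < a.degree + h.degree := by
    intro n
    rw [degree_eq_natDegree ha.ne_zero, degree_eq_natDegree hh.ne_zero, ← Nat.cast_add, ← hdeg]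
    rw [degree_lt_iff_coeff_zero]
    intro j hj
    rw [hf, Fn_coeff]
    rcases eq_or_lt_of_le hj with h1 | h1
    · rw [← h1]
      have h2 : F.coeff F.natDegree = 1 := hF
      rw [h2, PowerSeries.coeff_one, if_neg (by omega)]
    · rw [coeff_eq_zero_of_natDegree_lt h1, map_zero]
  have hd := AH_deg (f := f) ha hh huv hfd
  set A : ℕ → R[X] := fun n => (AH f a h u v n).1 with hA
  set H : ℕ → R[X] := fun n => (AH f a h u v n).2 with hH
  have hA0 : A 0 = a := by rw [hA]; simp only [AH_zero]
  have hH0 : H 0 = h := by rw [hH]; simp only [AH_zero]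
  have hAd : ∀ n, (A n).natDegree ≤ a.natDegree := by
    intro n
    cases n with
    | zero => rw [hA0]
    | succ n => exact natDegree_le_natDegree (hd n).1.le
  have hHd : ∀ n, (H n).natDegree ≤ h.natDegree := by
    intro n
    cases n with
    | zero => rw [hH0]
    | succ n => exact natDegree_le_natDegree (hd n).2.le
  have mon : ∀ (p : R[X]) (s : ℕ → R[X]), p.Monic → s 0 = p → (∀ n, (s n).natDegree ≤ p.natDegree) →
      (∀ n, (s (n + 1)).degree < p.degree) → (toP p.natDegree s).Monic := by
    intro p s hp hs0 hs hs1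
    refine monic_of_natDegree_le_of_coeff_eq_one p.natDegree (toP_natDegree _ _) ?_
    ext n
    rw [toP_coeff hs]
    cases n with
    | zero =>
      rw [hs0, PowerSeries.coeff_one, if_pos rfl]
      exact hp
    | succ n =>
      rw [PowerSeries.coeff_one, if_neg (by omega)]
      exact coeff_eq_zero_of_degree_lt (lt_of_lt_of_le (hs1 n) degree_le_natDegree)
  have red : ∀ (p : R[X]) (s : ℕ → R[X]), s 0 = p → (∀ n, (s n).natDegree ≤ p.natDegree) →
      (toP p.natDegree s).map (PowerSeries.constantCoeff (R := R)) = p := by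
    intro p s hs0 hs
    ext j
    rw [coeff_map, ← PowerSeries.coeff_zero_eq_constantCoeff_apply, toP_coeff hs, hs0]
  refine ⟨toP a.natDegree A, toP h.natDegree H, mon a A ha hA0 hAd fun n => (hd n).1,
    mon h H hh hH0 hHd fun n => (hd n).2, ?_, red a A hA0 hAd, red h H hH0 hHd⟩
  ext j n
  rw [coeff_mul, map_sum]
  simp only [PowerSeries.coeff_mul, toP_coeff hAd, toP_coeff hHd]
  rw [Finset.sum_comm]
  simp only [← coeff_mul]
  rw [← finsetSum_coeff]
  have h1 := sum_AH (f := f) ha huv hf0 n
  rw [hA, hH]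
  simp only
  rw [h1, hf, Fn_coeff]

end

end Pool.Agent.ZP3.H21
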